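import Mathlib

/-!
# MP_968ae6_lc: a semantically acyclic C2RPQ which is not equivalent to a single acyclic C2RPQ

The query is `Q(x, y, z) = (x, ε + a, y) ∧ (y, ε + b, z) ∧ (z, b⁻ + a⁻ + b⁻a⁻, x)`. The third atom
is implied by the first two unless both take the empty word, so `Q` is equivalent to the union of
four acyclic queries. It says, roughly, that `x = y` or `x →a y`, and `y = z` or `y →b z`, but not
both equalities. The set of answers of one acyclic query with three free variables over a graph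
database with `N` nodes is a union of `N` boxes `X_m × Y_m × Z_m` (`m` is the value at the median of
the three free variables in the forest). For the graph database on `ℤ/5` with the edges
`i →a i + 1` and `i →b i + 3` the set of answers of `Q` is not a union of five boxes.
-/

set_option autoImplicit false

namespace Pool.Agent.Results.MP_968ae6_lc.NotSingleAcyclic

/-- A graph database over the alphabet `S`: a finite set of nodes and a set of labelled edges. -/
structure GraphDB (S : Type) where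
  /-- the nodes -/
  V : Type
  finite : Finite V
  /-- `E u a v`: there is an edge from `u` to `v` labelled `a` -/
  E : V → S → V → Prop

section Defs

variable {S : Type}

/-- One step of a semipath. The letter `(a, true)` is `a` and `(a, false)` is the inverse letter
of `a`. -/
def GraphDB.step (G : GraphDB S) (l : S × Bool) (u v : G.V) : Prop :=
  if l.2 = true then G.E u l.1 v else G.E v l.1 u

/-- There is a semipath from `u` to `v` with label `w`. -/
def GraphDB.semipath (G : GraphDB S) : List (S × Bool) → G.V → G.V → Prop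
  | [], u, v => u = v
  | l :: w, u, v => ∃ x, G.step l u x ∧ G.semipath w x v

/-- The pair `(u, v)` is in `⟦R⟧_G`, for a 2RPQ `R`. -/
def GraphDB.eval (G : GraphDB S) (R : RegularExpression (S × Bool)) (u v : G.V) : Prop :=
  ∃ w ∈ R.matches', G.semipath w u v

/-- A C2RPQ over `S` with `r` free variables. The variables are the elements of `Fin n`, the free
tuple is `head`, and an atom is a triple of a variable, a 2RPQ and a variable. -/
structure C2RPQ (S : Type) (r : ℕ) where
  /-- the number of variables -/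
  n : ℕ
  /-- the free tuple -/
  head : Fin r → Fin n
  /-- the atoms -/
  atoms : List (Fin n × RegularExpression (S × Bool) × Fin n)

/-- The set `Q(G)` of answers. -/
def C2RPQ.ans {r : ℕ} (Q : C2RPQ S r) (G : GraphDB S) : Set (Fin r → G.V) :=
  {t | ∃ h : Fin Q.n → G.V, (∀ i, h (Q.head i) = t i) ∧
    ∀ A ∈ Q.atoms, G.eval A.2.1 (h A.1) (h A.2.2)}

/-- A C2RPQ is acyclic if the graph on its variables, with an edge between `u ≠ v` if some atom
contains both, is a forest. -/
def C2RPQ.Acyclic {r : ℕ} (Q : C2RPQ S r) : Prop :=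
  (SimpleGraph.fromRel fun u v : Fin Q.n => ∃ R, (u, R, v) ∈ Q.atoms).IsAcyclic

/-- `Q` is semantically acyclic: it is equivalent to a finite union of acyclic C2RPQs. -/
def C2RPQ.SemanticallyAcyclic {r : ℕ} (Q : C2RPQ S r) : Prop :=
  ∃ U : List (C2RPQ S r), (∀ P ∈ U, P.Acyclic) ∧
    ∀ G : GraphDB S, Q.ans G = {t | ∃ P ∈ U, t ∈ P.ans G}

end Defs

/-! ### Evaluation of expressions -/

section Eval

variable {S : Type} (G : GraphDB S)

theorem semipath_append (w w' : List (S × Bool)) (u v : G.V) :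
    G.semipath (w ++ w') u v ↔ ∃ x, G.semipath w u x ∧ G.semipath w' x v := by
  induction w generalizing u with
  | nil => simp [GraphDB.semipath]
  | cons l w ih =>
    simp only [List.cons_append, GraphDB.semipath, ih]
    constructor
    · rintro ⟨x, hx, y, hy, hz⟩
      exact ⟨y, ⟨x, hx, hy⟩, hz⟩
    · rintro ⟨y, ⟨x, hx, hy⟩, hz⟩
      exact ⟨x, hx, y, hy, hz⟩

theorem eval_add (P R : RegularExpression (S × Bool)) (u v : G.V) :
    G.eval (P + R) u v ↔ G.eval P u v ∨ G.eval R u v := by
  unfold GraphDB.eval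
  rw [RegularExpression.matches'_add]
  constructor
  · rintro ⟨w, hw, h⟩
    rcases (Language.mem_add _ _ _).1 hw with hw | hw
    · exact Or.inl ⟨w, hw, h⟩
    · exact Or.inr ⟨w, hw, h⟩
  · rintro (⟨w, hw, h⟩ | ⟨w, hw, h⟩)
    · exact ⟨w, (Language.mem_add _ _ _).2 (Or.inl hw), h⟩
    · exact ⟨w, (Language.mem_add _ _ _).2 (Or.inr hw), h⟩

theorem eval_mul (P R : RegularExpression (S × Bool)) (u v : G.V) :
    G.eval (P * R) u v ↔ ∃ x, G.eval P u x ∧ G.eval R x v := by
  unfold GraphDB.eval
  rw [RegularExpression.matches'_mul]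
  constructor
  · rintro ⟨w, hw, h⟩
    obtain ⟨w1, h1, w2, h2, rfl⟩ := Language.mem_mul.1 hw
    obtain ⟨x, hx, hy⟩ := (semipath_append G _ _ _ _).1 h
    exact ⟨x, ⟨w1, h1, hx⟩, ⟨w2, h2, hy⟩⟩
  · rintro ⟨x, ⟨w1, h1, hx⟩, ⟨w2, h2, hy⟩⟩
    exact ⟨w1 ++ w2, Language.mem_mul.2 ⟨w1, h1, w2, h2, rfl⟩,
      (semipath_append G _ _ _ _).2 ⟨x, hx, hy⟩⟩

theorem eval_one (u v : G.V) : G.eval 1 u v ↔ u = v := by
  unfold GraphDB.eval
  rw [RegularExpression.matches'_epsilon]
  constructor
  · rintro ⟨w, hw, h⟩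
    rw [Language.mem_one] at hw
    subst hw
    exact h
  · intro h
    exact ⟨[], Language.nil_mem_one, h⟩

theorem eval_char (l : S × Bool) (u v : G.V) :
    G.eval (RegularExpression.char l) u v ↔ G.step l u v := by
  unfold GraphDB.eval
  rw [RegularExpression.matches'_char]
  constructor
  · rintro ⟨w, hw, h⟩
    have : w = [l] := hw
    subst this
    obtain ⟨x, hx, hy⟩ := h
    have : x = v := hy
    rw [← this]
    exact hx
  · intro h
    exact ⟨[l], rfl, v, h, rfl⟩

end Eval

/-! ### The answers of an acyclic query -/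

section Forest

variable {n : ℕ} (T : SimpleGraph (Fin n))

/-- every walk from `u` to `v` passes through `c` -/
def Sep (c u v : Fin n) : Prop := ∀ w : T.Walk u v, c ∈ w.support

variable {T}

theorem Sep.symm {c u v : Fin n} (h : Sep T c u v) : Sep T c v u := by
  intro w
  have := h w.reverse
  rwa [SimpleGraph.Walk.support_reverse, List.mem_reverse] at this

theorem sep_of_mem_path (hT : T.IsAcyclic) {u v c : Fin n} (P : T.Walk u v) (hP : P.IsPath)
    (hc : c ∈ P.support) : Sep T c u v := by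
  intro w
  have h1 : (⟨w.bypass, w.bypass_isPath⟩ : T.Path u v) = ⟨P, hP⟩ :=
    (hT.subsingleton_path u v).elim _ _
  have h2 : w.bypass = P := congrArg Subtype.val h1
  rw [← h2] at hc
  exact w.support_bypass_subset_support hc

theorem exists_median (hT : T.IsAcyclic) (p q r : Fin n) :
    ∃ c, Sep T c p q ∧ Sep T c p r ∧ Sep T c q r := by
  classical
  by_cases hpq : T.Reachable p q
  swap
  · exact ⟨r, fun w => absurd ⟨w⟩ hpq, fun w => w.end_mem_support, fun w => w.end_mem_support⟩
  by_cases hpr : T.Reachable p r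
  swap
  · exact ⟨q, fun w => w.end_mem_support, fun w => absurd ⟨w⟩ hpr, fun w => w.start_mem_support⟩
  obtain ⟨P0⟩ := hpq
  obtain ⟨P, hP⟩ := (⟨P0.bypass, P0.bypass_isPath⟩ : T.Path p q)
  -- the first vertex of `R` in `P`
  have key : ∀ (r s : Fin n) (W : T.Walk r s), s ∈ P.support →
      ∃ c, c ∈ P.support ∧ ∃ W1 : T.Walk r c, W1.support ⊆ W.support ∧
        ∀ x ∈ W1.support, x ∈ P.support → x = c := by
    intro r s W hs
    induction W with
    | nil =>
      rename_i u
      exact ⟨u, hs, SimpleGraph.Walk.nil, fun x hx => hx, fun x hx _ => by simpa using hx⟩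
    | cons hadj W ih =>
      rename_i u v w
      by_cases hu : u ∈ P.support
      · exact ⟨u, hu, SimpleGraph.Walk.nil, fun x hx => by
          have : x = u := by simpa using hx
          rw [this]; simp, fun x hx _ => by simpa using hx⟩
      · obtain ⟨c, hc, W1, hW1, h1⟩ := ih hs
        refine ⟨c, hc, SimpleGraph.Walk.cons hadj W1, ?_, ?_⟩
        · intro x hx
          rw [SimpleGraph.Walk.support_cons, List.mem_cons] at hx ⊢
          rcases hx with hx | hx
          · exact Or.inl hx
          · exact Or.inr (hW1 hx)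
        · intro x hx hxP
          rw [SimpleGraph.Walk.support_cons, List.mem_cons] at hx
          rcases hx with rfl | hx
          · exact absurd hxP hu
          · exact h1 x hx hxP
  obtain ⟨R0⟩ := hpr
  obtain ⟨R, hR⟩ := (⟨R0.reverse.bypass, R0.reverse.bypass_isPath⟩ : T.Path r p)
  obtain ⟨c, hcP, W1, hW1, h1⟩ := key r p R P.start_mem_support
  refine ⟨c, sep_of_mem_path hT P hP hcP,
    (sep_of_mem_path hT R hR (hW1 W1.end_mem_support)).symm, ?_⟩
  refine Sep.symm ?_
  intro w
  by_contra hcw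
  -- the walk from `c` back to `r` and then to `q`
  by_cases hrc : r = c
  · subst hrc
    exact hcw w.start_mem_support
  -- reverse of `W1`: its first edge leaves `P`
  have h2 : ∀ (x : Fin n) (W2 : T.Walk c x), x = r → c ≠ x →
      (∀ y ∈ W2.support, y ∈ P.support → y = c) → W2.IsPath → False := by
    intro x W2 hx hcx h3 hpath
    cases W2 with
    | nil => exact hcx rfl
    | cons hadj W3 =>
      rename_i y
      subst hx
      rw [SimpleGraph.Walk.cons_isPath_iff] at hpath
      have hy : y ∉ P.support := by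
        intro hy
        have h4 : y = c := h3 y (by
          rw [SimpleGraph.Walk.support_cons]
          exact List.mem_cons_of_mem _ W3.start_mem_support) hy
        subst h4
        exact hpath.2 W3.start_mem_support
      have h5 : c ∉ (W3.append w).support := by
        rw [SimpleGraph.Walk.mem_support_append_iff]
        rintro (h6 | h6)
        · exact hpath.2 h6
        · exact hcw h6
      have h6 : c ∉ (W3.append w).bypass.support :=
        fun h => h5 ((W3.append w).support_bypass_subset_support h)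
      have h7 : (SimpleGraph.Walk.cons hadj (W3.append w).bypass).IsPath := by
        rw [SimpleGraph.Walk.cons_isPath_iff]
        exact ⟨(W3.append w).bypass_isPath, h6⟩
      have h8 : (⟨SimpleGraph.Walk.cons hadj (W3.append w).bypass, h7⟩ : T.Path c q) =
          ⟨P.dropUntil c hcP, hP.dropUntil hcP⟩ := (hT.subsingleton_path c q).elim _ _
      have h9 : SimpleGraph.Walk.cons hadj (W3.append w).bypass = P.dropUntil c hcP :=
        congrArg Subtype.val h8
      apply hy
      apply P.support_dropUntil_subset_support hcP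
      rw [← h9, SimpleGraph.Walk.support_cons]
      exact List.mem_cons_of_mem _ (SimpleGraph.Walk.start_mem_support _)
  refine h2 r W1.reverse.bypass rfl (fun h => hrc h.symm) ?_ W1.reverse.bypass_isPath
  intro y hy hyP
  refine h1 y ?_ hyP
  have := W1.reverse.support_bypass_subset_support hy
  rwa [SimpleGraph.Walk.support_reverse, List.mem_reverse] at this

end Forest

/-- The answers of an acyclic C2RPQ with three free variables form a union of boxes, one for each
node. -/
theorem exists_boxes {S : Type} (Q : C2RPQ S 3) (hQ : Q.Acyclic) (G : GraphDB S) :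
    ∃ X Y Z : G.V → Set G.V, ∀ t : Fin 3 → G.V,
      t ∈ Q.ans G ↔ ∃ m, t 0 ∈ X m ∧ t 1 ∈ Y m ∧ t 2 ∈ Z m := by
  classical
  set T : SimpleGraph (Fin Q.n) :=
    SimpleGraph.fromRel fun u v : Fin Q.n => ∃ R, (u, R, v) ∈ Q.atoms with hTdef
  have hT : T.IsAcyclic := hQ
  obtain ⟨c, h01, h02, h12⟩ := exists_median hT (Q.head 0) (Q.head 1) (Q.head 2)
  -- homomorphisms
  set Hom : (Fin Q.n → G.V) → Prop := fun h => ∀ A ∈ Q.atoms, G.eval A.2.1 (h A.1) (h A.2.2)
    with hHom
  refine ⟨fun m => {x | ∃ h, Hom h ∧ h c = m ∧ h (Q.head 0) = x},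
    fun m => {x | ∃ h, Hom h ∧ h c = m ∧ h (Q.head 1) = x},
    fun m => {x | ∃ h, Hom h ∧ h c = m ∧ h (Q.head 2) = x}, fun t => ?_⟩
  constructor
  · rintro ⟨h, h1, h2⟩
    exact ⟨h c, ⟨h, h2, rfl, h1 0⟩, ⟨h, h2, rfl, h1 1⟩, ⟨h, h2, rfl, h1 2⟩⟩
  · rintro ⟨m, ⟨f, hf, hfc, hf0⟩, ⟨g, hg, hgc, hg1⟩, ⟨k, hk, hkc, hk2⟩⟩
    -- the component of `u` after deleting `c`
    let C : Fin Q.n → Fin Q.n → Prop := fun u v => ∃ w : T.Walk u v, c ∉ w.support
    have hCadj : ∀ u v v', C u v → T.Adj v v' → v' ≠ c → C u v' := by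
      rintro u v v' ⟨w, hw⟩ hadj hne
      refine ⟨w.concat hadj, ?_⟩
      rw [SimpleGraph.Walk.support_concat, List.mem_append]
      rintro (h | h)
      · exact hw h
      · have h1 : c = v' := by simpa using h
        exact hne h1.symm
    have hCc : ∀ u, ¬ C u c := by
      rintro u ⟨w, hw⟩
      exact hw w.end_mem_support
    have hCrefl : ∀ u, u ≠ c → C u u := by
      intro u hu
      refine ⟨SimpleGraph.Walk.nil, ?_⟩
      simpa using hu.symm
    have hdisj : ∀ u u' v, Sep T c u u' → C u v → ¬ C u' v := by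
      rintro u u' v hs ⟨w, hw⟩ ⟨w', hw'⟩
      have := hs (w.append w'.reverse)
      rw [SimpleGraph.Walk.mem_support_append_iff, SimpleGraph.Walk.support_reverse,
        List.mem_reverse] at this
      rcases this with h | h
      · exact hw h
      · exact hw' h
    let h : Fin Q.n → G.V := fun v =>
      if C (Q.head 1) v then g v else if C (Q.head 2) v then k v else f v
    have hc : h c = m := by
      show (if C (Q.head 1) c then g c else if C (Q.head 2) c then k c else f c) = m
      rw [if_neg (hCc _), if_neg (hCc _), hfc]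
    have hh0 : h (Q.head 0) = t 0 := by
      by_cases he : Q.head 0 = c
      · rw [he, hc, ← hf0, he, hfc]
      · show (if C (Q.head 1) (Q.head 0) then g (Q.head 0) else
          if C (Q.head 2) (Q.head 0) then k (Q.head 0) else f (Q.head 0)) = t 0
        rw [if_neg (hdisj _ _ _ h01 (hCrefl _ he)), if_neg (hdisj _ _ _ h02 (hCrefl _ he)), hf0]
    have hh1 : h (Q.head 1) = t 1 := by
      by_cases he : Q.head 1 = c
      · rw [he, hc, ← hg1, he, hgc]
      · show (if C (Q.head 1) (Q.head 1) then g (Q.head 1) else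
          if C (Q.head 2) (Q.head 1) then k (Q.head 1) else f (Q.head 1)) = t 1
        rw [if_pos (hCrefl _ he), hg1]
    have hh2 : h (Q.head 2) = t 2 := by
      by_cases he : Q.head 2 = c
      · rw [he, hc, ← hk2, he, hkc]
      · show (if C (Q.head 1) (Q.head 2) then g (Q.head 2) else
          if C (Q.head 2) (Q.head 2) then k (Q.head 2) else f (Q.head 2)) = t 2
        rw [if_neg (hdisj _ _ _ h12.symm (hCrefl _ he)), if_pos (hCrefl _ he), hk2]
    have h3 : ∀ i : Fin 3, h (Q.head i) = t i := by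
      intro i
      fin_cases i
      · exact hh0
      · exact hh1
      · exact hh2
    refine ⟨h, h3, ?_⟩
    -- on each atom `h` agrees with one of the three homomorphisms
    have hone : ∀ u v : Fin Q.n, (u = v ∨ T.Adj u v) →
        (h u = f u ∧ h v = f v) ∨ (h u = g u ∧ h v = g v) ∨ (h u = k u ∧ h v = k v) := by
      have hval : ∀ v, v = c ∨ (C (Q.head 1) v ∧ h v = g v) ∨
          (¬ C (Q.head 1) v ∧ C (Q.head 2) v ∧ h v = k v) ∨
          (¬ C (Q.head 1) v ∧ ¬ C (Q.head 2) v ∧ h v = f v) := by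
        intro v
        by_cases hvc : v = c
        · exact Or.inl hvc
        · by_cases a1 : C (Q.head 1) v
          · exact Or.inr (Or.inl ⟨a1, if_pos a1⟩)
          · by_cases a2 : C (Q.head 2) v
            · refine Or.inr (Or.inr (Or.inl ⟨a1, a2, ?_⟩))
              show (if C (Q.head 1) v then g v else if C (Q.head 2) v then k v else f v) = k v
              rw [if_neg a1, if_pos a2]
            · refine Or.inr (Or.inr (Or.inr ⟨a1, a2, ?_⟩))
              show (if C (Q.head 1) v then g v else if C (Q.head 2) v then k v else f v) = f v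
              rw [if_neg a1, if_neg a2]
      have hcf : h c = f c := by rw [hc, hfc]
      have hcg : h c = g c := by rw [hc, hgc]
      have hck : h c = k c := by rw [hc, hkc]
      intro u v huv
      by_cases huc : u = c
      · subst huc
        rcases hval v with hv | ⟨_, hv⟩ | ⟨_, _, hv⟩ | ⟨_, _, hv⟩
        · subst hv
          exact Or.inl ⟨hcf, hcf⟩
        · exact Or.inr (Or.inl ⟨hcg, hv⟩)
        · exact Or.inr (Or.inr ⟨hck, hv⟩)
        · exact Or.inl ⟨hcf, hv⟩
      by_cases hvc : v = c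
      · subst hvc
        rcases hval u with hv | ⟨_, hv⟩ | ⟨_, _, hv⟩ | ⟨_, _, hv⟩
        · exact absurd hv huc
        · exact Or.inr (Or.inl ⟨hv, hcg⟩)
        · exact Or.inr (Or.inr ⟨hv, hck⟩)
        · exact Or.inl ⟨hv, hcf⟩
      have hiff : ∀ i, C (Q.head i) u ↔ C (Q.head i) v := by
        intro i
        rcases huv with rfl | hadj
        · exact Iff.rfl
        · exact ⟨fun a => hCadj _ _ _ a hadj hvc, fun a => hCadj _ _ _ a hadj.symm huc⟩
      rcases hval u with hu | ⟨a1, hu⟩ | ⟨a1, a2, hu⟩ | ⟨a1, a2, hu⟩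
      · exact absurd hu huc
      · rcases hval v with hv | ⟨b1, hv⟩ | ⟨b1, b2, hv⟩ | ⟨b1, b2, hv⟩
        · exact absurd hv hvc
        · exact Or.inr (Or.inl ⟨hu, hv⟩)
        · exact absurd ((hiff 1).1 a1) b1
        · exact absurd ((hiff 1).1 a1) b1
      · rcases hval v with hv | ⟨b1, hv⟩ | ⟨b1, b2, hv⟩ | ⟨b1, b2, hv⟩
        · exact absurd hv hvc
        · exact absurd ((hiff 1).2 b1) a1
        · exact Or.inr (Or.inr ⟨hu, hv⟩)
        · exact absurd ((hiff 2).1 a2) b2
      · rcases hval v with hv | ⟨b1, hv⟩ | ⟨b1, b2, hv⟩ | ⟨b1, b2, hv⟩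
        · exact absurd hv hvc
        · exact absurd ((hiff 1).2 b1) a1
        · exact absurd ((hiff 2).2 b2) a2
        · exact Or.inl ⟨hu, hv⟩
    intro A hA
    have hrel : A.1 = A.2.2 ∨ T.Adj A.1 A.2.2 := by
      by_cases he : A.1 = A.2.2
      · exact Or.inl he
      · right
        rw [hTdef, SimpleGraph.fromRel_adj]
        exact ⟨he, Or.inl ⟨A.2.1, hA⟩⟩
    rcases hone A.1 A.2.2 hrel with ⟨e1, e2⟩ | ⟨e1, e2⟩ | ⟨e1, e2⟩
    · rw [e1, e2]; exact hf A hA
    · rw [e1, e2]; exact hg A hA
    · rw [e1, e2]; exact hk A hA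

/-! ### The example -/

/-- The alphabet. -/
inductive Letter
  | a
  | b

open RegularExpression in
/-- The query `(x, ε + a, y) ∧ (y, ε + b, z) ∧ (z, b⁻ + a⁻ + b⁻a⁻, x)` with free tuple
`(x, y, z)`. -/
def query : C2RPQ Letter 3 where
  n := 3
  head := id
  atoms := [(0, 1 + char (Letter.a, true), 1), (1, 1 + char (Letter.b, true), 2),
    (2, char (Letter.b, false) + char (Letter.a, false) +
      char (Letter.b, false) * char (Letter.a, false), 0)]

open RegularExpression in
/-- `x = y ∧ (y, b, z)` -/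
def D1 : C2RPQ Letter 3 where
  n := 3
  head := id
  atoms := [(0, 1, 1), (1, char (Letter.b, true), 2)]

open RegularExpression in
/-- `(x, a, y) ∧ y = z` -/
def D2 : C2RPQ Letter 3 where
  n := 3
  head := id
  atoms := [(0, char (Letter.a, true), 1), (1, 1, 2)]

open RegularExpression in
/-- `(x, a, y) ∧ (y, b, z)` -/
def D3 : C2RPQ Letter 3 where
  n := 3
  head := id
  atoms := [(0, char (Letter.a, true), 1), (1, char (Letter.b, true), 2)]

open RegularExpression in
/-- `x = y ∧ y = z ∧ (x, ab, x)` -/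
def D4 : C2RPQ Letter 3 where
  n := 3
  head := id
  atoms := [(0, 1, 1), (1, 1, 2), (0, char (Letter.a, true) * char (Letter.b, true), 0)]

theorem step_true {S : Type} (G : GraphDB S) (s : S) (u v : G.V) :
    G.step (s, true) u v ↔ G.E u s v := by
  unfold GraphDB.step
  simp

theorem step_false {S : Type} (G : GraphDB S) (s : S) (u v : G.V) :
    G.step (s, false) u v ↔ G.E v s u := by
  unfold GraphDB.step
  simp

theorem mem_ans_iff (L : List (Fin 3 × RegularExpression (Letter × Bool) × Fin 3))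
    (G : GraphDB Letter) (t : Fin 3 → G.V) :
    t ∈ (C2RPQ.mk 3 id L).ans G ↔ ∀ A ∈ L, G.eval A.2.1 (t A.1) (t A.2.2) := by
  constructor
  · rintro ⟨h, h1, h2⟩
    have : h = t := funext h1
    rw [← this]
    exact h2
  · intro h
    exact ⟨t, fun _ => rfl, h⟩

theorem mem_query (G : GraphDB Letter) (t : Fin 3 → G.V) : t ∈ query.ans G ↔
    (t 0 = t 1 ∨ G.E (t 0) .a (t 1)) ∧ (t 1 = t 2 ∨ G.E (t 1) .b (t 2)) ∧
      (G.E (t 0) .b (t 2) ∨ G.E (t 0) .a (t 2) ∨ ∃ u, G.E u .b (t 2) ∧ G.E (t 0) .a u) := by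
  refine (mem_ans_iff _ G t).trans ?_
  simp only [List.forall_mem_cons, List.not_mem_nil, false_imp_iff, implies_true, and_true,
    eval_add, eval_mul, eval_one, eval_char, step_true, step_false, or_assoc]

theorem mem_D1 (G : GraphDB Letter) (t : Fin 3 → G.V) :
    t ∈ D1.ans G ↔ t 0 = t 1 ∧ G.E (t 1) .b (t 2) := by
  refine (mem_ans_iff _ G t).trans ?_
  simp only [List.forall_mem_cons, List.not_mem_nil, false_imp_iff, implies_true, and_true,
    eval_one, eval_char, step_true]

theorem mem_D2 (G : GraphDB Letter) (t : Fin 3 → G.V) :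
    t ∈ D2.ans G ↔ G.E (t 0) .a (t 1) ∧ t 1 = t 2 := by
  refine (mem_ans_iff _ G t).trans ?_
  simp only [List.forall_mem_cons, List.not_mem_nil, false_imp_iff, implies_true, and_true,
    eval_one, eval_char, step_true]

theorem mem_D3 (G : GraphDB Letter) (t : Fin 3 → G.V) :
    t ∈ D3.ans G ↔ G.E (t 0) .a (t 1) ∧ G.E (t 1) .b (t 2) := by
  refine (mem_ans_iff _ G t).trans ?_
  simp only [List.forall_mem_cons, List.not_mem_nil, false_imp_iff, implies_true, and_true,
    eval_char, step_true]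

theorem mem_D4 (G : GraphDB Letter) (t : Fin 3 → G.V) :
    t ∈ D4.ans G ↔ t 0 = t 1 ∧ t 1 = t 2 ∧ ∃ u, G.E (t 0) .a u ∧ G.E u .b (t 0) := by
  refine (mem_ans_iff _ G t).trans ?_
  simp only [List.forall_mem_cons, List.not_mem_nil, false_imp_iff, implies_true, and_true,
    eval_mul, eval_one, eval_char, step_true]

theorem query_eq (G : GraphDB Letter) :
    query.ans G = {t | ∃ P ∈ [D1, D2, D3, D4], t ∈ P.ans G} := by
  ext t
  rw [mem_query]
  simp only [Set.mem_ofPred_eq, List.mem_cons, List.not_mem_nil, or_false, exists_eq_or_imp,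
    exists_eq_left, mem_D1, mem_D2, mem_D3, mem_D4]
  constructor
  · rintro ⟨h1 | h1, h2 | h2, h3⟩
    · rcases h3 with h3 | h3 | ⟨u, h3, h4⟩
      · left
        exact ⟨h1, by rw [← h1]; exact h3⟩
      · right; left
        exact ⟨by rw [h2]; exact h3, h2⟩
      · right; right; right
        exact ⟨h1, h2, u, h4, by rw [h1, h2]; exact h3⟩
    · left
      exact ⟨h1, h2⟩
    · right; left
      exact ⟨h1, h2⟩
    · right; right; left
      exact ⟨h1, h2⟩
  · rintro (⟨h1, h2⟩ | ⟨h1, h2⟩ | ⟨h1, h2⟩ | ⟨h1, h2, u, h3, h4⟩)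
    · exact ⟨Or.inl h1, Or.inr h2, Or.inl (by rw [h1]; exact h2)⟩
    · exact ⟨Or.inr h1, Or.inl h2, Or.inr (Or.inl (by rw [← h2]; exact h1))⟩
    · exact ⟨Or.inr h1, Or.inr h2, Or.inr (Or.inr ⟨t 1, h2, h1⟩)⟩
    · exact ⟨Or.inl h1, Or.inl h2, Or.inr (Or.inr ⟨u, by rw [← h2, ← h1]; exact h4, h3⟩)⟩

/-- a graph on `Fin 3` without the edge between `0` and `2` is a forest -/
theorem path_acyclic (T : SimpleGraph (Fin 3)) (h : ¬ T.Adj 0 2) : T.IsAcyclic := by
  classical
  intro v w hw
  have h3 := hw.three_le_length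
  have h4 : w.support.tail.Nodup := hw.support_nodup
  have h5 : w.support.tail.length = w.length := by
    rw [List.length_tail, SimpleGraph.Walk.length_support]
    rfl
  have h6 := h4.length_le_card
  rw [h5, Fintype.card_fin] at h6
  have h7 : w.length = 3 := le_antisymm h6 h3
  -- all three edges are used
  have h8 : w.edges.Nodup := hw.edges_nodup
  have h9 : w.edges.length = 3 := by rw [SimpleGraph.Walk.length_edges, h7]
  have h10 : w.edges ⊆ [s(0, 1), s(1, 2)] := by
    intro e he
    have h11 := w.edges_subset_edgeSet he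
    induction e using Sym2.ind with
    | _ x y =>
      rw [SimpleGraph.mem_edgeSet] at h11
      have hne := h11.ne
      have h' : ¬ T.Adj 2 0 := fun a => h a.symm
      fin_cases x <;> fin_cases y <;> simp_all [Sym2.eq_swap]
  have h11 := (List.subperm_of_subset h8 h10).length_le
  rw [h9] at h11
  simp at h11

theorem acyclic_of_atoms (L : List (Fin 3 × RegularExpression (Letter × Bool) × Fin 3))
    (h1 : ∀ R, ((0 : Fin 3), R, (2 : Fin 3)) ∉ L) (h2 : ∀ R, ((2 : Fin 3), R, (0 : Fin 3)) ∉ L) :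
    (C2RPQ.mk 3 id L).Acyclic := by
  apply path_acyclic
  rw [SimpleGraph.fromRel_adj]
  rintro ⟨-, ⟨R, hR⟩ | ⟨R, hR⟩⟩
  · exact h1 R hR
  · exact h2 R hR

theorem acyclic_D1 : D1.Acyclic := by
  apply acyclic_of_atoms <;> intro R hR <;> simp at hR

theorem acyclic_D2 : D2.Acyclic := by
  apply acyclic_of_atoms <;> intro R hR <;> simp at hR

theorem acyclic_D3 : D3.Acyclic := by
  apply acyclic_of_atoms <;> intro R hR <;> simp at hR

theorem acyclic_D4 : D4.Acyclic := by
  apply acyclic_of_atoms <;> intro R hR <;> simp at hR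

/-- The graph database on `ℤ/5` with the edges `i →a i + 1` and `i →b i + 3`. -/
def G5 : GraphDB Letter where
  V := ZMod 5
  finite := inferInstanceAs (Finite (Fin 5))
  E := fun u l v => match l with
    | .a => v = u + 1
    | .b => v = u + 3

theorem mem_G5 (t : Fin 3 → ZMod 5) : t ∈ query.ans G5 ↔
    (t 0 = t 1 ∨ t 1 = t 0 + 1) ∧ (t 1 = t 2 ∨ t 2 = t 1 + 3) ∧
      (t 2 = t 0 + 3 ∨ t 2 = t 0 + 1 ∨ t 2 = t 0 + 4) := by
  refine (mem_query G5 t).trans ?_
  have h : (∃ u : ZMod 5, t 2 = u + 3 ∧ u = t 0 + 1) ↔ t 2 = t 0 + 4 := by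
    constructor
    · rintro ⟨u, h1, h2⟩
      rw [h1, h2, add_assoc]
      rfl
    · intro h1
      refine ⟨t 0 + 1, ?_, rfl⟩
      rw [h1, add_assoc]
      rfl
  rw [← h]
  exact Iff.rfl

theorem not_boxes : ¬ ∃ X Y Z : ZMod 5 → Set (ZMod 5), ∀ t : Fin 3 → ZMod 5,
    t ∈ query.ans G5 ↔ ∃ m, t 0 ∈ X m ∧ t 1 ∈ Y m ∧ t 2 ∈ Z m := by
  rintro ⟨X, Y, Z, h⟩
  have h' : ∀ x y z : ZMod 5, ((x = y ∨ y = x + 1) ∧ (y = z ∨ z = y + 3) ∧
      (z = x + 3 ∨ z = x + 1 ∨ z = x + 4)) ↔ ∃ m, x ∈ X m ∧ y ∈ Y m ∧ z ∈ Z m := by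
    intro x y z
    exact (mem_G5 ![x, y, z]).symm.trans (h ![x, y, z])
  -- two answers for each `y`
  have h1 : ∀ y : ZMod 5, ∃ m, y ∈ X m ∧ y ∈ Y m ∧ y + 3 ∈ Z m := by
    intro y
    refine (h' y y (y + 3)).1 ⟨Or.inl rfl, Or.inr rfl, Or.inl rfl⟩
  have h2 : ∀ y : ZMod 5, ∃ m, y - 1 ∈ X m ∧ y ∈ Y m ∧ y ∈ Z m := by
    intro y
    refine (h' (y - 1) y y).1 ⟨Or.inr (by ring), Or.inl rfl, Or.inr (Or.inl (by ring))⟩
  choose f hf using h1
  choose g hg using h2
  have huniq : ∀ x y y' z : ZMod 5, ((x = y ∨ y = x + 1) ∧ (y = z ∨ z = y + 3) ∧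
      (z = x + 3 ∨ z = x + 1 ∨ z = x + 4)) → ((x = y' ∨ y' = x + 1) ∧ (y' = z ∨ z = y' + 3) ∧
      (z = x + 3 ∨ z = x + 1 ∨ z = x + 4)) → y = y' := by decide
  have hno : ∀ y : ZMod 5, ¬ ((y = y ∨ y = y + 1) ∧ (y = y ∨ y = y + 3) ∧
      (y = y + 3 ∨ y = y + 1 ∨ y = y + 4)) := by decide
  have hinj : Function.Injective f := by
    intro y y' hyy
    have a1 := hf y
    have a2 := hf y'
    rw [← hyy] at a2
    exact huniq _ _ _ _ ((h' y y (y + 3)).2 ⟨f y, a1⟩) ((h' y y' (y + 3)).2 ⟨f y, a1.1, a2.2.1, a1.2.2⟩)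
  have hsurj := Finite.surjective_of_injective hinj
  obtain ⟨y, hy⟩ := hsurj (g 0)
  have a1 := hf y
  have a2 := hg 0
  rw [← hy] at a2
  have hy0 : y = 0 := huniq _ _ _ _ ((h' y y (y + 3)).2 ⟨f y, a1⟩)
    ((h' y 0 (y + 3)).2 ⟨f y, a1.1, a2.2.1, a1.2.2⟩)
  subst hy0
  exact hno 0 ((h' 0 0 0).2 ⟨f 0, a1.1, a1.2.1, a2.2.2⟩)

/-- There is a C2RPQ (over an alphabet with two letters, with three free variables, all languages
finite) which is semantically acyclic, that is, equivalent to a finite union of acyclic C2RPQs, but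
which is not equivalent to any single acyclic C2RPQ. -/
theorem result : ∃ Q : C2RPQ Letter 3, Function.Injective Q.head ∧ Q.SemanticallyAcyclic ∧
    ∀ P : C2RPQ Letter 3, P.Acyclic → ¬ ∀ G : GraphDB Letter, Q.ans G = P.ans G := by
  refine ⟨query, fun _ _ h => h, ⟨[D1, D2, D3, D4], ?_, query_eq⟩, fun P hP h => ?_⟩
  · simp only [List.forall_mem_cons]
    exact ⟨acyclic_D1, acyclic_D2, acyclic_D3, acyclic_D4, by simp⟩
  · obtain ⟨X, Y, Z, hXYZ⟩ := exists_boxes P hP G5
    apply not_boxes
    refine ⟨X, Y, Z, fun t => ?_⟩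
    rw [h G5]
    exact hXYZ t

end Pool.Agent.Results.MP_968ae6_lc.NotSingleAcyclic
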